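import Pool.Agent.W78.EG.Defs
import Pool.Agent.W78.GA.Basic

/-!
Project EG, part PNTX: `b^Ω` is aperiodic (port of `Pool.Agent.W578.EX.PNTX` and of
`Pool.Agent.W605.EC.P5`).
-/

set_option autoImplicit false

namespace Pool.Agent.W738.EG

open Finset Filter
open Pool.Agent.W78.GA
open Pool.Agent.W78.EG (bO S_LMX S_PNTX Apd S_PID HCh Fd)

variable {t c : ℤ}

/-! ### The residue ring -/

/-- the residue ring of `Qd t c` modulo `M` -/
abbrev RM (t c : ℤ) (M : ℕ) := QuadraticAlgebra (ZMod M) (-(c : ZMod M)) (t : ZMod M)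

/-- reduction modulo `M` -/
def red (t c : ℤ) (M : ℕ) : Qd t c →+* RM t c M where
  toFun z := ⟨(z.re : ZMod M), (z.im : ZMod M)⟩
  map_one' := by
    apply QuadraticAlgebra.ext
    · simp only [QuadraticAlgebra.re_one, Int.cast_one]
    · simp only [QuadraticAlgebra.im_one, Int.cast_zero]
  map_mul' z w := by
    apply QuadraticAlgebra.ext
    · simp only [QuadraticAlgebra.re_mul]; push_cast; ring
    · simp only [QuadraticAlgebra.im_mul]; push_cast; ring
  map_zero' := by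
    apply QuadraticAlgebra.ext
    · simp only [QuadraticAlgebra.re_zero, Int.cast_zero]
    · simp only [QuadraticAlgebra.im_zero, Int.cast_zero]
  map_add' z w := by
    apply QuadraticAlgebra.ext
    · simp only [QuadraticAlgebra.re_add]; push_cast; ring
    · simp only [QuadraticAlgebra.im_add]; push_cast; ring

lemma red_re (M : ℕ) (z : Qd t c) : (red t c M z).re = (z.re : ZMod M) := rfl
lemma red_im (M : ℕ) (z : Qd t c) : (red t c M z).im = (z.im : ZMod M) := rfl

lemma red_eq {M : ℕ} {z z' : Qd t c} :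
    red t c M z = red t c M z' ↔ (M : ℤ) ∣ z.re - z'.re ∧ (M : ℤ) ∣ z.im - z'.im := by
  rw [QuadraticAlgebra.ext_iff, red_re, red_re, red_im, red_im, eq_comm,
    @eq_comm _ (z.im : ZMod M), ZMod.intCast_eq_intCast_iff_dvd_sub,
    ZMod.intCast_eq_intCast_iff_dvd_sub]

lemma red_surj (M : ℕ) : Function.Surjective (red t c M) := by
  intro a
  obtain ⟨x, hx⟩ := ZMod.intCast_surjective a.re
  obtain ⟨y, hy⟩ := ZMod.intCast_surjective a.im
  refine ⟨⟨x, y⟩, ?_⟩
  apply QuadraticAlgebra.ext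
  · rw [red_re]; exact hx
  · rw [red_im]; exact hy

instance finiteRM (M : ℕ) [NeZero M] : Finite (RM t c M) :=
  Finite.of_equiv _ (QuadraticAlgebra.equivProd (-(c : ZMod M)) (t : ZMod M)).symm

lemma isUnit_red {M : ℕ} {z : Qd t c} : IsUnit (red t c M z) ↔ IsCoprime z (M : Qd t c) := by
  constructor
  · intro h
    obtain ⟨b, hb⟩ := h.exists_right_inv
    obtain ⟨w, rfl⟩ := red_surj M b
    rw [← map_mul, ← map_one (red t c M), red_eq] at hb
    have h1 : (M : Qd t c) ∣ z * w - 1 := by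
      rw [natCast_dvd]
      exact ⟨by rw [QuadraticAlgebra.re_sub]; exact hb.1, by
        rw [QuadraticAlgebra.im_sub]; exact hb.2⟩
    obtain ⟨v, hv⟩ := h1
    refine ⟨w, -v, ?_⟩
    have : z * w = (M : Qd t c) * v + 1 := by rw [← hv]; ring
    calc w * z + -v * (M : Qd t c) = z * w - (M : Qd t c) * v := by ring
      _ = 1 := by rw [this]; ring
  · rintro ⟨a, b, hab⟩
    have h1 := congrArg (red t c M) hab
    rw [map_add, map_mul, map_mul, map_one, map_natCast] at h1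
    have h2 : ((M : ℕ) : RM t c M) = 0 := by
      apply QuadraticAlgebra.ext
      · rw [QuadraticAlgebra.re_natCast, ZMod.natCast_self, QuadraticAlgebra.re_zero]
      · rw [QuadraticAlgebra.im_natCast, QuadraticAlgebra.im_zero]
    rw [h2, mul_zero, add_zero] at h1
    exact IsUnit.of_mul_eq_one_right _ h1

/-- functions which are periodic modulo `M` -/
def PerM (M : ℕ) (F : Qd t c → ℂ) : Prop :=
  ∀ z z' : Qd t c, red t c M z = red t c M z' → F z = F z'

lemma perM_bounded {M : ℕ} (hM : 1 ≤ M) {F : Qd t c → ℂ} (hF : PerM M F) :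
    ∃ B : ℝ, 0 < B ∧ ∀ z, ‖F z‖ ≤ B := by
  classical
  have : NeZero M := ⟨by omega⟩
  have : Fintype (RM t c M) := Fintype.ofFinite _
  obtain ⟨rep, hrep⟩ := (red_surj (t := t) (c := c) M).hasRightInverse
  refine ⟨∑ a : RM t c M, ‖F (rep a)‖ + 1, ?_, fun z => ?_⟩
  · have : 0 ≤ ∑ a : RM t c M, ‖F (rep a)‖ := Finset.sum_nonneg fun _ _ => norm_nonneg _
    linarith
  · rw [hF z (rep (red t c M z)) (hrep _).symm]
    have := Finset.single_le_sum (f := fun a : RM t c M => ‖F (rep a)‖)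
      (fun _ _ => norm_nonneg _) (Finset.mem_univ (red t c M z))
    linarith

/-- functions which are periodic modulo `M` and vanish at the multiples of the elements of `D` -/
def WD (M : ℕ) (D : Finset (Qd t c)) (F : Qd t c → ℂ) : Prop :=
  PerM M F ∧ ∀ z, (∃ δ ∈ D, δ ∣ z) → F z = 0

lemma dvd_of_red {M : ℕ} {δ z z' : Qd t c} (hδ : δ ∣ (M : Qd t c))
    (h : red t c M z = red t c M z') (hz : δ ∣ z) : δ ∣ z' := by
  rw [red_eq] at h
  have h1 : (M : Qd t c) ∣ z - z' := by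
    rw [natCast_dvd]
    exact ⟨by rw [QuadraticAlgebra.re_sub]; exact h.1, by rw [QuadraticAlgebra.im_sub]; exact h.2⟩
  have h2 : z' = z - (z - z') := by ring
  rw [h2]
  exact dvd_sub hz (hδ.trans h1)

lemma card_ball (hD : t ^ 2 < 4 * c) {X : ℝ} (hX : 0 ≤ X) : ((ball t c X).card : ℝ) ≤ 36 * X := by
  rcases lt_or_ge X 1 with h1 | h1
  · have : ball t c X = ∅ := by
      rw [Finset.eq_empty_iff_forall_notMem]
      intro z hz
      rw [mem_ball hD] at hz
      have : (1 : ℝ) ≤ nm z := by exact_mod_cast hz.1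
      linarith [hz.2]
    rw [this]; simp; exact hX
  · set s := Nat.sqrt (4 * ⌊X⌋₊) with hs
    have hf1 : 1 ≤ ⌊X⌋₊ := Nat.le_floor (by exact_mod_cast h1)
    have hs1 : 1 ≤ s := by
      rw [hs, Nat.le_sqrt]; omega
    have hmaps : ∀ z ∈ ball t c X, (2 * z.re + t * z.im, z.im) ∈
        (Icc (-(s : ℤ)) s) ×ˢ (Icc (-(s : ℤ)) s) := by
      intro z hz
      rw [mem_ball hD] at hz
      have h2 : nm z ≤ ⌊X⌋₊ := Nat.le_floor hz.2
      have h3 := nm_cast hD z
      have h4 : (nm z : ℤ) ≤ (⌊X⌋₊ : ℤ) := by exact_mod_cast h2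
      have e1 := four_nm z
      rw [← h3] at e1
      have hD1 : 1 ≤ 4 * c - t ^ 2 := by linarith
      have key : ∀ x : ℤ, x ^ 2 ≤ 4 * (⌊X⌋₊ : ℤ) → x ∈ Icc (-(s : ℤ)) s := by
        intro x hx
        have h5 : x.natAbs ≤ s := by
          rw [hs, Nat.le_sqrt]
          have : ((x.natAbs * x.natAbs : ℕ) : ℤ) ≤ ((4 * ⌊X⌋₊ : ℕ) : ℤ) := by
            rw [Nat.cast_mul, Int.natAbs_mul_self', ← sq]; push_cast; exact hx
          exact_mod_cast this
        rw [mem_Icc]
        constructor <;> omega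
      rw [mem_product]
      refine ⟨key _ ?_, key _ ?_⟩
      · change (2 * z.re + t * z.im) ^ 2 ≤ _
        nlinarith [mul_nonneg (sub_nonneg.2 hD.le) (sq_nonneg z.im)]
      · change z.im ^ 2 ≤ _
        nlinarith [sq_nonneg (2 * z.re + t * z.im), mul_nonneg (sub_nonneg.2 hD1) (sq_nonneg z.im)]
    have hc : (ball t c X).card ≤ (2 * s + 1) * (2 * s + 1) := by
      refine (card_le_card_of_injOn _ hmaps ?_).trans ?_
      · intro z _ w _ hzw
        have h5 : 2 * z.re + t * z.im = 2 * w.re + t * w.im := (Prod.ext_iff.1 hzw).1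
        have h6 : z.im = w.im := (Prod.ext_iff.1 hzw).2
        apply QuadraticAlgebra.ext
        · rw [h6] at h5; linarith
        · exact h6
      · rw [card_product, Int.card_Icc]
        have : ((s : ℤ) + 1 - -(s : ℤ)).toNat = 2 * s + 1 := by omega
        rw [this]
    have h2 : s * s ≤ 4 * ⌊X⌋₊ := Nat.sqrt_le _
    have h3 : (ball t c X).card ≤ 36 * ⌊X⌋₊ := by nlinarith
    calc ((ball t c X).card : ℝ) ≤ ((36 * ⌊X⌋₊ : ℕ) : ℝ) := by exact_mod_cast h3
      _ = 36 * (⌊X⌋₊ : ℝ) := by push_cast; ring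
      _ ≤ 36 * X := by
          have := Nat.floor_le hX
          linarith

lemma exists_divisor (hD : t ^ 2 < 4 * c) (hP : S_PID t c) {M : ℕ} (hM : 1 ≤ M) {z : Qd t c}
    (h : ¬ IsCoprime z (M : Qd t c)) :
    ∃ δ : Qd t c, δ ∣ z ∧ δ ∣ (M : Qd t c) ∧ 2 ≤ nm δ := by
  obtain ⟨δ, hδ⟩ := (hP.principal (Ideal.span {z, (M : Qd t c)})).principal
  have hδ' : Ideal.span {z, (M : Qd t c)} = Ideal.span {δ} := hδ
  have e1 : δ ∣ z := by
    rw [← Ideal.mem_span_singleton, ← hδ']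
    exact Ideal.subset_span (by simp)
  have e2 : δ ∣ (M : Qd t c) := by
    rw [← Ideal.mem_span_singleton, ← hδ']
    exact Ideal.subset_span (by simp)
  refine ⟨δ, e1, e2, ?_⟩
  by_contra hlt
  have h3 : nm δ = 0 ∨ nm δ = 1 := by omega
  rcases h3 with h3 | h3
  · rw [nm_eq_zero hD] at h3
    rw [h3, zero_dvd_iff] at e2
    have h4 : nm ((M : ℕ) : Qd t c) = 0 := by rw [e2, nm_zero]
    rw [nm_natCast] at h4
    have := pow_eq_zero_iff (two_ne_zero) |>.1 h4
    omega
  · apply h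
    have h4 : IsUnit δ := by
      refine IsUnit.of_mul_eq_one (star δ) ?_
      rw [mul_star_self' hD, h3, Nat.cast_one]
    have h5 : (1 : Qd t c) ∈ Ideal.span {z, (M : Qd t c)} := by
      rw [hδ', Ideal.span_singleton_eq_top.2 h4]
      trivial
    rw [Ideal.mem_span_pair] at h5
    obtain ⟨a, b, hab⟩ := h5
    exact ⟨a, b, hab⟩

/-- completely multiplicative functions of absolute value `1`, invariant under multiplication by
units, whose products with characters have mean value zero -/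
structure CG (G : Qd t c → ℂ) : Prop where
  mul : ∀ z w : Qd t c, z ≠ 0 → w ≠ 0 → G (z * w) = G z * G w
  nrm : ∀ z, ‖G z‖ = 1
  unt : ∀ u z : Qd t c, nm u = 1 → G (u * z) = G z
  lm : ∀ (M : ℕ) (φ : Qd t c → ℂ), 1 ≤ M → HCh M φ → ∀ ε : ℝ, 0 < ε → ∃ X₀ : ℝ,
    ∀ X : ℝ, X₀ ≤ X → ‖∑ z ∈ ball t c X, G z * φ z‖ ≤ ε * X

variable {G : Qd t c → ℂ}

/-! ### Sm G functions -/

/-- the sum of the Liouville function of the norm times `f` -/
noncomputable def TG (G : Qd t c → ℂ) (X : ℝ) (f : Qd t c → ℂ) : ℂ := ∑ z ∈ ball t c X, G z * f z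

/-- mean value zero -/
def Sm (G : Qd t c → ℂ) (f : Qd t c → ℂ) : Prop := ∀ ε : ℝ, 0 < ε → ∃ X₀ : ℝ, ∀ X : ℝ, X₀ ≤ X →
  ‖TG G X f‖ ≤ ε * X

lemma TG_add (X : ℝ) (f g : Qd t c → ℂ) : TG G X (fun z => f z + g z) = TG G X f + TG G X g := by
  unfold TG
  rw [← Finset.sum_add_distrib]
  exact Finset.sum_congr rfl fun z _ => by ring

lemma TG_smul (X : ℝ) (a : ℂ) (f : Qd t c → ℂ) : TG G X (fun z => a * f z) = a * TG G X f := by
  unfold TG
  rw [Finset.mul_sum]
  exact Finset.sum_congr rfl fun z _ => by ring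

lemma Sm.add {f g : Qd t c → ℂ} (hf : Sm G f) (hg : Sm G g) : Sm G (fun z => f z + g z) := by
  intro ε hε
  obtain ⟨X₁, h1⟩ := hf (ε / 2) (by linarith)
  obtain ⟨X₂, h2⟩ := hg (ε / 2) (by linarith)
  refine ⟨max X₁ X₂, fun X hX => ?_⟩
  rw [TG_add]
  have e1 := h1 X ((le_max_left _ _).trans hX)
  have e2 := h2 X ((le_max_right _ _).trans hX)
  calc ‖TG G X f + TG G X g‖ ≤ ‖TG G X f‖ + ‖TG G X g‖ := norm_add_le _ _
    _ ≤ ε / 2 * X + ε / 2 * X := by linarith
    _ = ε * X := by ring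

lemma Sm.smul {f : Qd t c → ℂ} (hf : Sm G f) (a : ℂ) : Sm G (fun z => a * f z) := by
  intro ε hε
  have ha : 0 < ‖a‖ + 1 := by positivity
  obtain ⟨X₁, h1⟩ := hf (ε / (‖a‖ + 1)) (by positivity)
  refine ⟨X₁, fun X hX => ?_⟩
  rw [TG_smul, norm_mul]
  have e1 := h1 X hX
  have e2 : 0 ≤ ‖TG G X f‖ := norm_nonneg _
  calc ‖a‖ * ‖TG G X f‖ ≤ (‖a‖ + 1) * ‖TG G X f‖ := by nlinarith
    _ ≤ (‖a‖ + 1) * (ε / (‖a‖ + 1) * X) := mul_le_mul_of_nonneg_left e1 ha.le
    _ = ε * X := by field_simp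

lemma small_zero : Sm G (fun _ => 0) := by
  intro ε hε
  refine ⟨0, fun X hX => ?_⟩
  unfold TG
  simp only [mul_zero, Finset.sum_const_zero, norm_zero]
  positivity

lemma Sm.sum {ι : Type} (s : Finset ι) {f : ι → Qd t c → ℂ} (hf : ∀ i ∈ s, Sm G (f i)) :
    Sm G (fun z => ∑ i ∈ s, f i z) := by
  classical
  induction s using Finset.induction_on with
  | empty => simpa using small_zero
  | insert a s ha ih =>
    have h1 := (hf a (Finset.mem_insert_self a s)).add
      (ih fun i hi => hf i (Finset.mem_insert_of_mem hi))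
    have h2 : (fun z => ∑ i ∈ insert a s, f i z) = fun z => f a z + ∑ i ∈ s, f i z := by
      funext z; exact Finset.sum_insert ha
    rw [h2]; exact h1



lemma small_char (hD : t ^ 2 < 4 * c) (h : CG G) {M : ℕ} (hM : 1 ≤ M)
    (χ : MulChar (RM t c M) ℂ) : Sm G (fun z => χ (red t c M z)) := by
  by_cases hi : ∀ u : Qd t c, nm u = 1 → χ (red t c M u) = 1
  · apply h.lm M _ hM
    refine ⟨?_, ?_, ?_, hi, ?_⟩
    · intro z z' h1 h2
      rw [(red_eq (M := M)).2 ⟨h1, h2⟩]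
    · intro z z'
      rw [map_mul, map_mul]
    · rw [map_one, map_one]
    · intro z
      rw [← isUnit_red (M := M)]
      constructor
      · intro h1
        by_contra h2
        exact h1 (χ.map_nonunit h2)
      · intro h1
        exact (h1.map χ).ne_zero
  · push Not at hi
    obtain ⟨u, hu1, hu2⟩ := hi
    intro ε hε
    refine ⟨0, fun X hX => ?_⟩
    have hI1 : u * star u = 1 := by rw [mul_star_self' hD, hu1, Nat.cast_one]
    have hI2 : star u * u = 1 := by rw [mul_comm]; exact hI1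
    have hn2 : nm (star u) = 1 := by rw [nm_star, hu1]
    have h1 : TG G X (fun z => χ (red t c M z)) =
        χ (red t c M u) * TG G X (fun z => χ (red t c M z)) := by
      conv_lhs => unfold TG
      unfold TG
      rw [Finset.mul_sum]
      symm
      apply Finset.sum_nbij' (fun z => u * z) (fun z => star u * z)
      · intro z hz
        rw [mem_ball hD] at hz ⊢
        rw [nm_mul, hu1, one_mul]; exact hz
      · intro z hz
        rw [mem_ball hD] at hz ⊢
        rw [nm_mul, hn2, one_mul]; exact hz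
      · intro z _
        rw [← mul_assoc, hI2, one_mul]
      · intro z _
        rw [← mul_assoc, hI1, one_mul]
      · intro z _
        rw [h.unt u z hu1]
        beta_reduce
        rw [map_mul, map_mul]; ring
    have h2 : TG G X (fun z => χ (red t c M z)) = 0 := by
      have h3 : (1 - χ (red t c M u)) * TG G X (fun z => χ (red t c M z)) = 0 := by
        rw [sub_mul, one_mul, ← h1, sub_self]
      rcases mul_eq_zero.1 h3 with h4 | h4
      · exact absurd (sub_eq_zero.1 h4).symm hu2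
      · exact h4
    rw [h2, norm_zero]
    positivity


/-! ### Orthogonality -/

lemma small_unit_class (hD : t ^ 2 < 4 * c) (h : CG G) {M : ℕ} (hM : 1 ≤ M) (a : (RM t c M)ˣ) :
    Sm G (fun z => open scoped Classical in if red t c M z = (a : RM t c M) then 1 else 0) := by
  classical
  have : NeZero M := ⟨by omega⟩
  have : Fintype (MulChar (RM t c M) ℂ) := Fintype.ofFinite _
  have horth : ∀ u : RM t c M, ∑ χ : MulChar (RM t c M) ℂ, χ u =
      if u = 1 then (Fintype.card (MulChar (RM t c M) ℂ) : ℂ) else 0 := by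
    intro u
    split_ifs with hu
    · rw [hu]; simp
    · obtain ⟨χ, hχ⟩ := MulChar.exists_apply_ne_one_of_hasEnoughRootsOfUnity (RM t c M) ℂ hu
      refine eq_zero_of_mul_eq_self_left hχ ?_
      simp only [Finset.mul_sum, ← MulChar.mul_apply]
      exact Fintype.sum_bijective _ (Group.mulLeft_bijective χ) _ _ fun χ' => rfl
  have hcard : (Fintype.card (MulChar (RM t c M) ℂ) : ℂ) ≠ 0 := by
    have : Nonempty (MulChar (RM t c M) ℂ) := ⟨1⟩
    exact_mod_cast Fintype.card_ne_zero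
  have hsm := Sm.sum (Finset.univ : Finset (MulChar (RM t c M) ℂ))
    (f := fun χ z => ((Fintype.card (MulChar (RM t c M) ℂ) : ℂ)⁻¹ * χ ((a⁻¹ : (RM t c M)ˣ) : RM t c M)) *
      χ (red t c M z)) (fun χ _ => (small_char hD h hM χ).smul _)
  convert hsm using 2 with z
  have h1 : ∀ χ : MulChar (RM t c M) ℂ, ((Fintype.card (MulChar (RM t c M) ℂ) : ℂ)⁻¹ *
      χ ((a⁻¹ : (RM t c M)ˣ) : RM t c M)) * χ (red t c M z) =
      (Fintype.card (MulChar (RM t c M) ℂ) : ℂ)⁻¹ * χ (((a⁻¹ : (RM t c M)ˣ) : RM t c M) * red t c M z) := by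
    intro χ; rw [map_mul]; ring
  simp_rw [h1]
  rw [← Finset.mul_sum, horth]
  have h2 : (((a⁻¹ : (RM t c M)ˣ) : RM t c M) * red t c M z = 1) ↔ red t c M z = (a : RM t c M) := by
    constructor
    · intro h3
      calc red t c M z = (a : RM t c M) * (((a⁻¹ : (RM t c M)ˣ) : RM t c M) * red t c M z) := by
            rw [← mul_assoc, Units.mul_inv, one_mul]
        _ = (a : RM t c M) := by rw [h3, mul_one]
    · intro h3
      rw [h3, Units.inv_mul]
  rw [if_congr h2 rfl rfl]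
  split_ifs
  · rw [inv_mul_cancel₀ hcard]
  · rw [mul_zero]


lemma small_units (hD : t ^ 2 < 4 * c) (h : CG G) {M : ℕ} (hM : 1 ≤ M) {F : Qd t c → ℂ} (hF : PerM M F)
    (h0 : ∀ z : Qd t c, ¬ IsCoprime z (M : Qd t c) → F z = 0) : Sm G F := by
  classical
  have : NeZero M := ⟨by omega⟩
  have : Fintype (RM t c M)ˣ := Fintype.ofFinite _
  obtain ⟨rep, hrep⟩ := (red_surj (t := t) (c := c) M).hasRightInverse
  have hsm := Sm.sum (Finset.univ : Finset (RM t c M)ˣ)
    (f := fun a z => F (rep a) * (if red t c M z = (a : RM t c M) then 1 else 0))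
    (fun a _ => (small_unit_class hD h hM a).smul _)
  convert hsm using 2 with z
  by_cases hz : IsUnit (red t c M z)
  · rw [Finset.sum_eq_single_of_mem hz.unit (Finset.mem_univ _)]
    · rw [IsUnit.unit_spec, if_pos rfl, mul_one]
      exact hF _ _ (hrep _).symm
    · intro b _ hb
      rw [if_neg, mul_zero]
      intro h1
      apply hb
      apply Units.ext
      rw [IsUnit.unit_spec, h1]
  · rw [h0 z (fun h1 => hz (isUnit_red.2 h1))]
    symm
    apply Finset.sum_eq_zero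
    intro b _
    rw [if_neg, mul_zero]
    intro h1
    exact hz (h1 ▸ b.isUnit)


lemma norm_TG (hD : t ^ 2 < 4 * c) (h : CG G) {X : ℝ} (hX : 0 ≤ X) {F : Qd t c → ℂ} (hF : ∀ z, ‖F z‖ ≤ 1) : ‖TG G X F‖ ≤ 36 * X := by
  unfold TG
  refine (norm_sum_le _ _).trans ?_
  calc ∑ z ∈ ball t c X, ‖G z * F z‖ ≤ ∑ _z ∈ ball t c X, (1 : ℝ) := by
        apply Finset.sum_le_sum
        intro z _
        rw [norm_mul, h.nrm, one_mul]; exact hF z
    _ = ((ball t c X).card : ℝ) := by simp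
    _ ≤ 36 * X := card_ball hD hX


lemma dil (hD : t ^ 2 < 4 * c) (h : CG G) {δ : Qd t c} (hδ : δ ≠ 0) (X : ℝ) (F : Qd t c → ℂ) :
    TG G X (fun z => open scoped Classical in if δ ∣ z then F z else 0) =
      G δ * TG G (X / nm δ) (fun z => F (δ * z)) := by
  classical
  unfold TG
  have hn : (0 : ℝ) < nm δ := nm_posR hD hδ
  have h1 : (ball t c X).filter (fun z => δ ∣ z) = (ball t c (X / nm δ)).image (fun z => δ * z) := by
    ext z
    rw [mem_filter, mem_image, mem_ball hD]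
    constructor
    · rintro ⟨⟨h2, h3⟩, w, rfl⟩
      refine ⟨w, ?_, rfl⟩
      rw [mem_ball hD]
      rw [nm_mul] at h2 h3
      refine ⟨Nat.one_le_iff_ne_zero.2 fun h0 => ?_, ?_⟩
      · rw [h0, mul_zero] at h2; omega
      · rw [le_div_iff₀ hn]
        push_cast at h3
        linarith
    · rintro ⟨w, hw, rfl⟩
      rw [mem_ball hD] at hw
      refine ⟨⟨?_, ?_⟩, dvd_mul_right _ _⟩
      · rw [nm_mul]
        exact Nat.mul_pos (nm_pos hD hδ) hw.1
      · rw [nm_mul]; push_cast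
        have := hw.2
        rw [le_div_iff₀ hn] at this
        linarith
  have h2 : ∑ z ∈ ball t c X, G z * (if δ ∣ z then F z else 0) =
      ∑ z ∈ (ball t c X).filter (fun z => δ ∣ z), G z * F z := by
    rw [Finset.sum_filter]
    apply Finset.sum_congr rfl
    intro z _
    split_ifs <;> simp
  rw [h2, h1, Finset.sum_image, Finset.mul_sum]
  · apply Finset.sum_congr rfl
    intro z hz
    rw [mem_ball hD] at hz
    rw [h.mul δ z hδ ((one_le_nm hD).1 hz.1)]
    ring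
  · intro z _ w _ hzw
    have h3 : δ * (z - w) = 0 := by rw [mul_sub]; exact sub_eq_zero.2 hzw
    have h4 : nm δ * nm (z - w) = 0 := by rw [← nm_mul, h3, nm_zero]
    rcases Nat.mul_eq_zero.1 h4 with h5 | h5
    · exact absurd ((nm_eq_zero hD).1 h5) hδ
    · exact sub_eq_zero.1 ((nm_eq_zero hD).1 h5)


lemma step1 (hD : t ^ 2 < 4 * c) (h : CG G) {M : ℕ} {D : Finset (Qd t c)} {δ : Qd t c} (hδM : δ ∣ (M : Qd t c)) (hδ : 2 ≤ nm δ)
    (hcl : ∀ F, WD M (insert δ D) F → Sm G F) :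
    ∀ k : ℕ, ∀ F, WD M D F → (∀ z, ‖F z‖ ≤ 1) → ∃ X₀ : ℝ, ∀ X : ℝ, X₀ ≤ X →
      ‖TG G X F‖ ≤ 36 * (3 / 4) ^ k * X := by
  classical
  have hδ0 : δ ≠ 0 := by
    rintro rfl
    rw [nm_zero] at hδ; omega
  intro k
  induction k with
  | zero =>
    intro F _ hF1
    refine ⟨0, fun X hX => ?_⟩
    rw [pow_zero, mul_one]
    exact norm_TG hD h hX hF1
  | succ k ih =>
    intro F hF hF1
    have hp : (0 : ℝ) < 36 * (3 / 4) ^ k := by positivity
    obtain ⟨X₁, h1⟩ := hcl (fun z => if δ ∣ z then 0 else F z) (by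
      refine ⟨?_, ?_⟩
      · intro z z' hzz
        have e1 : δ ∣ z ↔ δ ∣ z' := ⟨dvd_of_red hδM hzz, dvd_of_red hδM hzz.symm⟩
        simp only [e1, hF.1 z z' hzz]
      · rintro z ⟨d, hd, hdz⟩
        change (if δ ∣ z then 0 else F z) = 0
        rcases Finset.mem_insert.1 hd with rfl | hd
        · rw [if_pos hdz]
        · split_ifs
          · rfl
          · exact hF.2 z ⟨d, hd, hdz⟩) (36 * (3 / 4) ^ k / 4) (by positivity)
    obtain ⟨X₂, h2⟩ := ih (fun z => F (δ * z)) (by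
      refine ⟨?_, ?_⟩
      · intro z z' hzz
        apply hF.1
        rw [map_mul, map_mul, hzz]
      · rintro z ⟨d, hd, hdz⟩
        exact hF.2 _ ⟨d, hd, hdz.mul_left δ⟩) (fun z => hF1 _)
    have hn : (2 : ℝ) ≤ nm δ := by exact_mod_cast hδ
    refine ⟨max (max X₁ (X₂ * nm δ)) 0, fun X hX => ?_⟩
    have hX1 : X₁ ≤ X := (le_max_left _ _).trans ((le_max_left _ _).trans hX)
    have hX2 : X₂ * nm δ ≤ X := (le_max_right _ _).trans ((le_max_left _ _).trans hX)
    have hX0 : 0 ≤ X := (le_max_right _ _).trans hX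
    have e1 : TG G X F = TG G X (fun z => if δ ∣ z then 0 else F z) +
        TG G X (fun z => if δ ∣ z then F z else 0) := by
      rw [← TG_add]
      congr 1
      funext z
      split_ifs <;> simp
    have e2 : ‖TG G X (fun z => if δ ∣ z then F z else 0)‖ ≤ 36 * (3 / 4) ^ k * (X / nm δ) := by
      have e3 := dil hD h hδ0 X F
      have e4 : TG G X (fun z => if δ ∣ z then F z else 0) =
          G δ * TG G (X / nm δ) (fun z => F (δ * z)) := by
        rw [← e3]
      rw [e4, norm_mul, h.nrm, one_mul]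
      apply h2
      rw [le_div_iff₀ (by linarith)]
      exact hX2
    have e5 : X / nm δ ≤ X / 2 := div_le_div_of_nonneg_left hX0 (by norm_num) hn
    have e6 : 36 * (3 / 4) ^ k * (X / nm δ) ≤ 36 * (3 / 4) ^ k * (X / 2) :=
      mul_le_mul_of_nonneg_left e5 hp.le
    calc ‖TG G X F‖ ≤ ‖TG G X (fun z => if δ ∣ z then 0 else F z)‖ +
          ‖TG G X (fun z => if δ ∣ z then F z else 0)‖ := by rw [e1]; exact norm_add_le _ _
      _ ≤ 36 * (3 / 4) ^ k / 4 * X + 36 * (3 / 4) ^ k * (X / 2) :=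
          add_le_add (h1 X hX1) (e2.trans e6)
      _ = 36 * (3 / 4) ^ (k + 1) * X := by rw [pow_succ]; ring


lemma step2 (hD : t ^ 2 < 4 * c) (h : CG G) {M : ℕ} (hM : 1 ≤ M) {D : Finset (Qd t c)} {δ : Qd t c} (hδM : δ ∣ (M : Qd t c)) (hδ : 2 ≤ nm δ)
    (hcl : ∀ F, WD M (insert δ D) F → Sm G F) : ∀ F, WD M D F → Sm G F := by
  intro F hF
  obtain ⟨B, hB, hFB⟩ := perM_bounded hM hF.1
  have hB' : (B : ℂ) ≠ 0 := by exact_mod_cast hB.ne'
  have hs : Sm G (fun z => (B : ℂ)⁻¹ * F z) := by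
    intro ε hε
    obtain ⟨k, hk⟩ := exists_pow_lt_of_lt_one (show (0 : ℝ) < ε / 36 by positivity)
      (show (3 / 4 : ℝ) < 1 by norm_num)
    obtain ⟨X₀, h0⟩ := step1 hD h hδM hδ hcl k (fun z => (B : ℂ)⁻¹ * F z) (by
      refine ⟨?_, ?_⟩
      · intro z z' hzz
        simp only [hF.1 z z' hzz]
      · intro z hz
        simp only [hF.2 z hz, mul_zero]) (by
      intro z
      rw [norm_mul, norm_inv, Complex.norm_real, Real.norm_eq_abs, abs_of_pos hB,
        inv_mul_le_iff₀ hB, mul_one]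
      exact hFB z)
    refine ⟨max X₀ 0, fun X hX => ?_⟩
    refine (h0 X ((le_max_left _ _).trans hX)).trans ?_
    apply mul_le_mul_of_nonneg_right _ ((le_max_right _ _).trans hX)
    linarith
  have h2 := hs.smul (B : ℂ)
  have h3 : (fun z => (B : ℂ) * ((B : ℂ)⁻¹ * F z)) = F := by
    funext z
    rw [← mul_assoc, mul_inv_cancel₀ hB', one_mul]
  rwa [h3] at h2

lemma step3 (hD : t ^ 2 < 4 * c) (h : CG G) {M : ℕ} (hM : 1 ≤ M) (D : Finset (Qd t c)) (hD' : ∀ δ ∈ D, δ ∣ (M : Qd t c) ∧ 2 ≤ nm δ)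
    (hcl : ∀ F, WD M D F → Sm G F) : ∀ F, WD M ∅ F → Sm G F := by
  classical
  induction D using Finset.induction_on with
  | empty => exact hcl
  | insert δ D _ ih =>
    apply ih (fun d hd => hD' d (Finset.mem_insert_of_mem hd))
    have h1 := hD' δ (Finset.mem_insert_self δ D)
    exact step2 hD h hM h1.1 h1.2 hcl



theorem main (hD : t ^ 2 < 4 * c) (hP : S_PID t c) (h : CG G) (M : ℕ) (r₁ r₂ : ℤ) (hM : 1 ≤ M) (ε : ℝ) (hε : 0 < ε) : ∃ X₀ : ℝ,
    ∀ X : ℝ, X₀ ≤ X → ‖∑ z ∈ (ball t c X).filter (fun z => (M : ℤ) ∣ z.re - r₁ ∧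
      (M : ℤ) ∣ z.im - r₂), G z‖ ≤ ε * X := by
  classical
  have hcl : ∀ F, WD M ((ball t c ((M : ℝ) ^ 2)).filter
      (fun δ => δ ∣ (M : Qd t c) ∧ 2 ≤ nm δ)) F → Sm G F := by
    intro F hF
    apply small_units hD h hM hF.1
    intro z hz
    obtain ⟨δ, h1, h2, h3⟩ := exists_divisor hD hP hM hz
    apply hF.2
    refine ⟨δ, ?_, h1⟩
    rw [mem_filter, mem_ball hD]
    refine ⟨⟨by omega, ?_⟩, h2, h3⟩
    have h4 := nm_dvd h2
    rw [nm_natCast] at h4
    have h5 : nm δ ≤ M ^ 2 := Nat.le_of_dvd (by positivity) h4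
    exact_mod_cast h5
  have hall := step3 hD h hM _ (fun δ hδ => (mem_filter.1 hδ).2) hcl
  have hF := hall (fun z => if (M : ℤ) ∣ z.re - r₁ ∧ (M : ℤ) ∣ z.im - r₂ then 1 else 0) (by
    refine ⟨?_, ?_⟩
    · intro z z' hzz
      have e1 : ((M : ℤ) ∣ z.re - r₁ ∧ (M : ℤ) ∣ z.im - r₂) ↔ red t c M z = red t c M ⟨r₁, r₂⟩ := by
        rw [red_eq]
      have e2 : ((M : ℤ) ∣ z'.re - r₁ ∧ (M : ℤ) ∣ z'.im - r₂) ↔ red t c M z' = red t c M ⟨r₁, r₂⟩ := by
        rw [red_eq]
      simp only [e1, e2, hzz]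
    · rintro z ⟨δ, hδ, _⟩
      simp at hδ)
  obtain ⟨X₀, h0⟩ := hF ε hε
  refine ⟨X₀, fun X hX => ?_⟩
  have h1 := h0 X hX
  have h2 : TG G X (fun z => if (M : ℤ) ∣ z.re - r₁ ∧ (M : ℤ) ∣ z.im - r₂ then 1 else 0) =
      ∑ z ∈ (ball t c X).filter (fun z => (M : ℤ) ∣ z.re - r₁ ∧ (M : ℤ) ∣ z.im - r₂), G z := by
    unfold TG
    rw [Finset.sum_filter]
    apply Finset.sum_congr rfl
    intro z _
    rw [mul_ite, mul_one, mul_zero]
  rw [h2] at h1
  exact h1

theorem pntx {f : ℕ} {χ : DirichletCharacter ℂ f} (hF : Fd t c f χ) (hP : S_PID t c)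
    (h : S_LMX t c) : S_PNTX t c := by
  have hD : t ^ 2 < 4 * c := by
    have h1 := hF.disc
    have h2 : (3 : ℤ) ≤ f := by exact_mod_cast hF.three
    linarith
  intro N b hN hb hb1
  have hnb : ‖b‖ = 1 := Complex.norm_eq_one_of_pow_eq_one hb (by omega)
  have hmul : ∀ z w : Qd t c, z ≠ 0 → w ≠ 0 → bO b (z * w) = bO b z * bO b w := by
    intro z w hz hw
    unfold bO
    rw [nm_mul, ArithmeticFunction.cardFactors_mul (nm_pos hD hz).ne' (nm_pos hD hw).ne', pow_add]
  refine ⟨⟨hN, hmul, ?_⟩, ?_⟩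
  · intro z
    unfold bO
    rw [← pow_mul, mul_comm, pow_mul, hb, one_pow]
  · refine main hD hP ⟨hmul, ?_, ?_, ?_⟩
    · intro z
      unfold bO
      rw [norm_pow, hnb, one_pow]
    · intro u z hu
      unfold bO
      rw [nm_mul, hu, one_mul]
    · exact fun M φ hM hφ => h N b hN hb hb1 M φ hM hφ

end Pool.Agent.W738.EG
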